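import Mathlib
import Pool.Agent.W262.TW.Stm2

/-!
# Project TW: REDS, reduction of the twists with a point of nonconstant type to tuples
-/

namespace Pool.Agent.W500.TW

open Finset Pool.Agent.W262.RK Pool.Agent.W262.TW

/-- splitting a squarefree natural number into smooth and rough parts -/
theorem split_sf (z a : ℕ) (ha : Squarefree a) :
    ∃ m D : ℕ, m ∣ primorial z ∧ Rg z D ∧ a = m * D := by
  have ha0 : a ≠ 0 := ha.ne_zero
  refine ⟨∏ p ∈ a.primeFactors.filter (fun p => p ≤ z), p,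
    ∏ p ∈ a.primeFactors.filter (fun p => ¬ p ≤ z), p, ?_, ⟨?_, ?_⟩, ?_⟩
  · unfold primorial
    apply Finset.prod_dvd_prod_of_subset
    intro p hp
    simp only [Finset.mem_filter, Nat.mem_primeFactors, Finset.mem_range] at hp ⊢
    exact ⟨by omega, hp.1.1⟩
  · have h : (∏ p ∈ a.primeFactors.filter (fun p => ¬ p ≤ z), p) ∣ a := by
      conv_rhs => rw [← Nat.prod_primeFactors_of_squarefree ha]
      exact Finset.prod_dvd_prod_of_subset _ _ _ (Finset.filter_subset _ _)
    exact ha.squarefree_of_dvd h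
  · intro p hp hd
    rw [hp.prime.dvd_finsetProd_iff] at hd
    obtain ⟨q, hq, hpq⟩ := hd
    simp only [Finset.mem_filter, Nat.mem_primeFactors] at hq
    rw [Nat.prime_dvd_prime_iff_eq hp hq.1.1] at hpq
    omega
  · rw [Finset.prod_filter_mul_prod_filter_not, Nat.prod_primeFactors_of_squarefree ha]

theorem mem_EE {z : ℕ} {x : ℤ} : x ∈ EE z ↔ x.natAbs ∣ primorial z := by
  unfold EE
  have h0 : primorial z ≠ 0 := (primorial_pos z).ne'
  simp only [Finset.mem_union, Finset.mem_image, Nat.mem_divisors]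
  constructor
  · rintro (⟨n, hn, rfl⟩ | ⟨n, hn, rfl⟩)
    · simpa using hn.1
    · simpa using hn.1
  · intro h
    rcases Int.natAbs_eq x with hx | hx
    · exact Or.inl ⟨x.natAbs, ⟨h, h0⟩, hx.symm⟩
    · exact Or.inr ⟨x.natAbs, ⟨h, h0⟩, hx.symm⟩

theorem EE_ne {z : ℕ} {x : ℤ} (h : x ∈ EE z) : x ≠ 0 := by
  rintro rfl
  rw [mem_EE] at h
  simp only [Int.natAbs_zero, zero_dvd_iff] at h
  exact (primorial_pos z).ne' h

theorem EE_prime {z : ℕ} {x : ℤ} (h : x ∈ EE z) {p : ℕ} (hp : p.Prime) (hz : z < p) :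
    ¬ p ∣ x.natAbs := by
  intro hd
  rw [mem_EE] at h
  have h1 := hd.trans h
  unfold primorial at h1
  rw [hp.prime.dvd_finsetProd_iff] at h1
  obtain ⟨q, hq, hpq⟩ := h1
  simp only [Finset.mem_filter, Finset.mem_range] at hq
  rw [Nat.prime_dvd_prime_iff_eq hp hq.2] at hpq
  omega

/-- decomposition of a nonzero integer -/
theorem decomp (z : ℕ) (n : ℤ) (hn : n ≠ 0) :
    ∃ κ ∈ EE z, ∃ D : ℕ, Rg z D ∧ ∃ t : ℤ, t ≠ 0 ∧ n = κ * D * t ^ 2 := by
  obtain ⟨a, b, ha, hb, hab, hsf⟩ := Nat.sq_mul_squarefree_of_pos (Int.natAbs_pos.mpr hn)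
  obtain ⟨m, D, hm, hD, hmD⟩ := split_sf z a hsf
  rcases Int.natAbs_eq n with h | h
  · refine ⟨m, ?_, D, hD, b, by exact_mod_cast hb.ne', ?_⟩
    · rw [mem_EE]; simpa using hm
    · rw [h, ← hab, hmD]; push_cast; ring
  · refine ⟨-m, ?_, D, hD, b, by exact_mod_cast hb.ne', ?_⟩
    · rw [mem_EE]; simpa using hm
    · rw [h, ← hab, hmD]; push_cast; ring

/-- decomposition of a squarefree integer -/
theorem decomp_sf (z : ℕ) (n : ℤ) (hn : Squarefree n) :
    ∃ κ ∈ EE z, ∃ D : ℕ, Rg z D ∧ n = κ * D := by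
  have hsf : Squarefree n.natAbs := Int.squarefree_natAbs.mpr hn
  obtain ⟨m, D, hm, hD, hmD⟩ := split_sf z _ hsf
  rcases Int.natAbs_eq n with h | h
  · refine ⟨m, ?_, D, hD, ?_⟩
    · rw [mem_EE]; simpa using hm
    · rw [h, hmD]; push_cast; ring
  · refine ⟨-m, ?_, D, hD, ?_⟩
    · rw [mem_EE]; simpa using hm
    · rw [h, hmD]; push_cast; ring

/-- uniqueness of the rough part -/
theorem rough_unique {z : ℕ} {a b : ℕ} {D P : ℕ} {y T : ℕ} (ha : a ≠ 0) (hb : b ≠ 0)
    (ha' : ∀ p : ℕ, p.Prime → z < p → ¬ p ∣ a) (hb' : ∀ p : ℕ, p.Prime → z < p → ¬ p ∣ b)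
    (hD : Rg z D) (hP : Rg z P) (hy : y ≠ 0) (hT : T ≠ 0)
    (h : a * D * y ^ 2 = b * P * T ^ 2) : D = P := by
  have hD0 : D ≠ 0 := hD.1.ne_zero
  have hP0 : P ≠ 0 := hP.1.ne_zero
  apply Nat.eq_of_factorization_eq hD0 hP0
  intro p
  by_cases hp : p.Prime
  · by_cases hz : z < p
    · have h1 := congrArg (fun n => n.factorization p) h
      rw [Nat.factorization_mul (mul_ne_zero ha hD0) (pow_ne_zero 2 hy),
        Nat.factorization_mul ha hD0, Nat.factorization_pow,
        Nat.factorization_mul (mul_ne_zero hb hP0) (pow_ne_zero 2 hT),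
        Nat.factorization_mul hb hP0, Nat.factorization_pow] at h1
      simp only [Finsupp.coe_add, Pi.add_apply, Finsupp.coe_smul, Pi.smul_apply, smul_eq_mul] at h1
      rw [Nat.factorization_eq_zero_of_not_dvd (ha' p hp hz),
        Nat.factorization_eq_zero_of_not_dvd (hb' p hp hz)] at h1
      have h2 := hD.1.natFactorization_le_one p
      have h3 := hP.1.natFactorization_le_one p
      omega
    · rw [Nat.factorization_eq_zero_of_not_dvd, Nat.factorization_eq_zero_of_not_dvd]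
      · intro hd; exact hz (hP.2 p hp hd)
      · intro hd; exact hz (hD.2 p hp hd)
  · rw [Nat.factorization_eq_zero_of_not_prime _ hp, Nat.factorization_eq_zero_of_not_prime _ hp]

section K

variable {K : Type} [Fintype K] [DecidableEq K]

omit [DecidableEq K] in
theorem Rg_prod {z : ℕ} (D : K → ℕ) (h : ∀ k, Rg z (D k))
    (hc : ∀ i k, i ≠ k → (D i).Coprime (D k)) : Rg z (∏ k, D k) := by
  constructor
  · apply Finset.squarefree_prod_of_pairwise_isCoprime
    · intro i _ k _ hik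
      rw [Function.onFun, Nat.coprime_iff_isRelPrime.symm]
      exact hc i k hik
    · intro i _
      exact (h i).1
  · intro p hp hd
    rw [hp.prime.dvd_finsetProd_iff] at hd
    obtain ⟨i, _, hi⟩ := hd
    exact (h i).2 p hp hi

omit [Fintype K] [DecidableEq K] in
theorem cop_of {α β : K → ℤ} {x w : ℤ} (hxw : IsCoprime x w) {p : ℕ} (hp : p.Prime) {i k : K}
    (hc : ¬ (p : ℤ) ∣ cc α β i k) (hi : (p : ℤ) ∣ α i * x + β i * w)
    (hk : (p : ℤ) ∣ α k * x + β k * w) : False := by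
  have hpp : Prime (p : ℤ) := Nat.prime_iff_prime_int.mp hp
  have h1 : (p : ℤ) ∣ cc α β i k * w := by
    have : cc α β i k * w = α i * (α k * x + β k * w) - α k * (α i * x + β i * w) := by
      unfold cc; ring
    rw [this]
    exact dvd_sub (Dvd.dvd.mul_left hk _) (Dvd.dvd.mul_left hi _)
  have h2 : (p : ℤ) ∣ cc α β i k * x := by
    have : cc α β i k * x = β k * (α i * x + β i * w) - β i * (α k * x + β k * w) := by
      unfold cc; ring
    rw [this]
    exact dvd_sub (Dvd.dvd.mul_left hi _) (Dvd.dvd.mul_left hk _)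
  have h1' := (hpp.dvd_or_dvd h1).resolve_left hc
  have h2' := (hpp.dvd_or_dvd h2).resolve_left hc
  exact hpp.not_isUnit (hxw.isUnit_of_dvd' h2' h1')

omit [Fintype K] [DecidableEq K] in
/-- the signs -/
theorem signs {α β : K → ℤ} {x w : ℤ} (hxw : IsCoprime x w) {p : ℕ} (hp : p.Prime) {i : K}
    (hcard : ∃ k, k ≠ i) (hc : ∀ k, k ≠ i → ¬ (p : ℤ) ∣ cc α β i k)
    (hi : (p : ℤ) ∣ α i * x + β i * w) :
    ∃ e : ℤ, (e = 1 ∨ e = -1) ∧ ∀ k, k ≠ i →
      jacobiSym (α k * x + β k * w) p = e * jacobiSym (cc α β i k) p := by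
  have : Fact p.Prime := ⟨hp⟩
  have hpp : Prime (p : ℤ) := Nat.prime_iff_prime_int.mp hp
  have hX : ∀ k, k ≠ i → ¬ (p : ℤ) ∣ α k * x + β k * w := fun k hk h =>
    cop_of hxw hp (hc k hk) hi h
  have hsq : ∀ a : ℤ, ¬ (p : ℤ) ∣ a → jacobiSym a p = 1 ∨ jacobiSym a p = -1 := by
    intro a ha
    rw [← jacobiSym.legendreSym.to_jacobiSym]
    apply legendreSym.eq_one_or_neg_one
    intro h0
    exact ha ((ZMod.intCast_zmod_eq_zero_iff_dvd a p).mp h0)
  by_cases hα : (p : ℤ) ∣ α i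
  · have hβ : ¬ (p : ℤ) ∣ -β i := by
      intro h
      obtain ⟨k, hk⟩ := hcard
      apply hc k hk
      unfold cc
      rw [dvd_neg] at h
      exact dvd_sub (Dvd.dvd.mul_right hα _) (Dvd.dvd.mul_left h _)
    have key : ∀ k, k ≠ i → jacobiSym (-β i) p * jacobiSym (α k * x + β k * w) p =
        jacobiSym (cc α β i k) p * jacobiSym x p := by
      intro k hk
      rw [← jacobiSym.mul_left, ← jacobiSym.mul_left]
      apply jacobiSym.mod_left'
      have : -β i * (α k * x + β k * w) - cc α β i k * x = -(β k * (α i * x + β i * w)) := by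
        unfold cc; ring
      have h2 : (p : ℤ) ∣ -β i * (α k * x + β k * w) - cc α β i k * x := by
        rw [this, dvd_neg]; exact Dvd.dvd.mul_left hi _
      exact (Int.ModEq.symm ((Int.modEq_iff_dvd).mpr h2))
    have hx : ¬ (p : ℤ) ∣ x := by
      intro h
      obtain ⟨k, hk⟩ := hcard
      have h1 := key k hk
      rw [(jacobiSym.eq_zero_iff_not_coprime (a := x) (b := p)).mpr, mul_zero] at h1
      · rcases hsq _ hβ with h2 | h2 <;> rcases hsq _ (hX k hk) with h3 | h3 <;>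
          rw [h2, h3] at h1 <;> norm_num at h1
      · intro hg
        have h4 := Int.dvd_coe_gcd h (dvd_refl (p : ℤ))
        rw [hg] at h4
        exact hpp.not_isUnit (isUnit_of_dvd_one (by exact_mod_cast h4))
    refine ⟨jacobiSym (-β i) p * jacobiSym x p, ?_, ?_⟩
    · rcases hsq _ hβ with h2 | h2 <;> rcases hsq _ hx with h3 | h3 <;> rw [h2, h3] <;> norm_num
    · intro k hk
      have h1 := key k hk
      rcases hsq _ hβ with h2 | h2 <;> rw [h2] at h1 ⊢ <;> linarith
  · have key : ∀ k, k ≠ i → jacobiSym (α i) p * jacobiSym (α k * x + β k * w) p =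
        jacobiSym (cc α β i k) p * jacobiSym w p := by
      intro k hk
      rw [← jacobiSym.mul_left, ← jacobiSym.mul_left]
      apply jacobiSym.mod_left'
      have : α i * (α k * x + β k * w) - cc α β i k * w = α k * (α i * x + β i * w) := by
        unfold cc; ring
      have h2 : (p : ℤ) ∣ α i * (α k * x + β k * w) - cc α β i k * w := by
        rw [this]; exact Dvd.dvd.mul_left hi _
      exact (Int.ModEq.symm ((Int.modEq_iff_dvd).mpr h2))
    have hx : ¬ (p : ℤ) ∣ w := by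
      intro h
      obtain ⟨k, hk⟩ := hcard
      have h1 := key k hk
      rw [(jacobiSym.eq_zero_iff_not_coprime (a := w) (b := p)).mpr, mul_zero] at h1
      · rcases hsq _ hα with h2 | h2 <;> rcases hsq _ (hX k hk) with h3 | h3 <;>
          rw [h2, h3] at h1 <;> norm_num at h1
      · intro hg
        have h4 := Int.dvd_coe_gcd h (dvd_refl (p : ℤ))
        rw [hg] at h4
        exact hpp.not_isUnit (isUnit_of_dvd_one (by exact_mod_cast h4))
    refine ⟨jacobiSym (α i) p * jacobiSym w p, ?_, ?_⟩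
    · rcases hsq _ hα with h2 | h2 <;> rcases hsq _ hx with h3 | h3 <;> rw [h2, h3] <;> norm_num
    · intro k hk
      have h1 := key k hk
      rcases hsq _ hα with h2 | h2 <;> rw [h2] at h1 ⊢ <;> linarith

theorem ngs_mem {c : K → K → ℤ} {s : K → ℤ} {i : K} {p : ℕ} (hp : p.Prime)
    (hc : ∀ k, k ≠ i → ¬ (p : ℤ) ∣ c i k) {e : ℤ} (he : e = 1 ∨ e = -1)
    (h : ∀ k, k ≠ i → jacobiSym (s k) p = e * jacobiSym (c i k) p) : ngs s i p ∈ Ths c i p := by
  have : Fact p.Prime := ⟨hp⟩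
  have hsq : ∀ a : ℤ, ¬ (p : ℤ) ∣ a → jacobiSym a p = 1 ∨ jacobiSym a p = -1 := by
    intro a ha
    rw [← jacobiSym.legendreSym.to_jacobiSym]
    apply legendreSym.eq_one_or_neg_one
    intro h0
    exact ha ((ZMod.intCast_zmod_eq_zero_iff_dvd a p).mp h0)
  unfold Ths
  rw [Finset.mem_insert, Finset.mem_singleton]
  rcases he with rfl | rfl
  · left
    unfold ngs
    apply Finset.filter_congr
    intro k _
    constructor
    · rintro ⟨h1, h2⟩
      exact ⟨h1, by rw [h k h1, one_mul] at h2; exact h2⟩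
    · rintro ⟨h1, h2⟩
      exact ⟨h1, by rw [h k h1, one_mul]; exact h2⟩
  · right
    unfold ngs
    ext k
    simp only [Finset.mem_filter, Finset.mem_univ, true_and, Finset.mem_sdiff, Finset.mem_erase,
      and_true]
    constructor
    · rintro ⟨h1, h2⟩
      refine ⟨h1, fun h3 => ?_⟩
      rw [h k h1, h3.2] at h2
      norm_num at h2
    · rintro ⟨h1, h2⟩
      refine ⟨h1, ?_⟩
      rw [h k h1]
      rcases hsq _ (hc k h1) with h3 | h3
      · rw [h3]; norm_num
      · exact absurd ⟨h1, h3⟩ h2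

end K

theorem reds : REDS := by
  intro K _ _ α β hK hcc
  refine ⟨2 + ∑ i, ∑ k, (cc α β i k).natAbs, fun z hz X => ?_⟩
  have hnd : ∀ i k, i ≠ k → ∀ p : ℕ, z < p → ¬ (p : ℤ) ∣ cc α β i k := by
    intro i k hik p hp hd
    have h1 : (cc α β i k).natAbs ≤ ∑ i, ∑ k, (cc α β i k).natAbs :=
      (Finset.single_le_sum (f := fun k => (cc α β i k).natAbs) (fun _ _ => Nat.zero_le _)
        (Finset.mem_univ k)).trans
      (Finset.single_le_sum (f := fun i => ∑ k, (cc α β i k).natAbs) (fun _ _ => Nat.zero_le _)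
        (Finset.mem_univ i))
    have h2 := Nat.le_of_dvd (Int.natAbs_pos.mpr (hcc i k hik)) (Int.natCast_dvd.mp hd)
    omega
  have hex : ∀ i : K, ∃ k, k ≠ i := by
    intro i
    have : Nontrivial K := Fintype.one_lt_card_iff_nontrivial.mp (by omega)
    exact exists_ne i
  classical
  set F : (K → ℤ) → Finset (K → ℕ) := fun κ =>
    (Fintype.piFinset (fun _ : K => Icc 1 X)).filter (fun D => (∀ i, Rg z (D i)) ∧
    (∀ i j, i ≠ j → (D i).Coprime (D j)) ∧ ∏ i, D i ≤ X ∧
    (∀ i, ∀ p ∈ (D i).primeFactors, ngs (fun k => κ k * D k) i p ∈ Ths (cc α β) i p) ∧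
    NC (cc α β) (fun k => κ k * D k)) with hF
  set S : Finset (ℤ × (Σ _ : K → ℤ, K → ℕ)) :=
    (EE z) ×ˢ ((Fintype.piFinset (fun _ : K => EE z)).sigma F) with hS
  have hsub : {d : ℤ | d.natAbs ≤ X ∧ Squarefree d ∧ BadS α β d} ⊆
      ((S.image (fun q => q.1 * ((∏ k, q.2.2 k : ℕ) : ℤ)) : Finset ℤ) : Set ℤ) := by
    rintro d ⟨hdX, hdsf, x, w, y, hxw, hy, hd, hNC⟩
    have hd0 : d ≠ 0 := hdsf.ne_zero
    have hX0 : ∀ k, α k * x + β k * w ≠ 0 := by
      intro k hk
      have h1 : d * y ^ 2 = 0 := by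
        rw [hd]; exact Finset.prod_eq_zero (Finset.mem_univ k) hk
      rcases mul_eq_zero.mp h1 with h | h
      · exact hd0 h
      · exact hy (pow_eq_zero_iff (two_ne_zero) |>.mp h)
    choose κ hκ D hD t ht hX using fun k => decomp z _ (hX0 k)
    obtain ⟨d0, hd0E, D', hD', hdd⟩ := decomp_sf z d hdsf
    have hDX : ∀ i : K, ∀ p : ℕ, p ∣ D i → (p : ℤ) ∣ α i * x + β i * w := by
      intro i p hp
      rw [hX i]
      exact Dvd.dvd.mul_right (Dvd.dvd.mul_left (by exact_mod_cast hp) _) _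
    have hcop : ∀ i j, i ≠ j → (D i).Coprime (D j) := by
      intro i j hij
      apply Nat.coprime_of_dvd
      intro p hp h1 h2
      exact cop_of hxw hp (hnd i j hij p ((hD i).2 p hp h1)) (hDX i p h1) (hDX j p h2)
    have hP : Rg z (∏ k, D k) := Rg_prod D hD hcop
    have hDP : D' = ∏ k, D k := by
      have h1 : d0 * D' * y ^ 2 = (∏ k, κ k) * (∏ k, D k : ℕ) * (∏ k, t k) ^ 2 := by
        rw [← hdd, hd, Finset.prod_congr rfl (fun k _ => hX k), Finset.prod_mul_distrib,
          Finset.prod_mul_distrib, Finset.prod_pow]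
        push_cast
        ring
      have h2 := congrArg Int.natAbs h1
      rw [Int.natAbs_mul, Int.natAbs_mul, Int.natAbs_mul, Int.natAbs_mul, Int.natAbs_pow,
        Int.natAbs_pow, Int.natAbs_natCast, Int.natAbs_natCast] at h2
      refine rough_unique (Int.natAbs_ne_zero.mpr (EE_ne hd0E))
        (Int.natAbs_ne_zero.mpr (Finset.prod_ne_zero_iff.mpr fun k _ => EE_ne (hκ k)))
        (fun p hp hz => EE_prime hd0E hp hz) ?_ hD' hP (Int.natAbs_ne_zero.mpr hy)
        (Int.natAbs_ne_zero.mpr (Finset.prod_ne_zero_iff.mpr fun k _ => ht k)) h2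
      intro p hp hz hpd
      have h3 : (p : ℤ) ∣ ∏ k, κ k := Int.natCast_dvd.mpr hpd
      rw [(Nat.prime_iff_prime_int.mp hp).dvd_finsetProd_iff] at h3
      obtain ⟨k, _, hk⟩ := h3
      exact EE_prime (hκ k) hp hz (Int.natCast_dvd.mp hk)
    have hPX : ∏ k, D k ≤ X := by
      rw [← hDP]
      refine le_trans ?_ hdX
      rw [hdd, Int.natAbs_mul, Int.natAbs_natCast]
      exact Nat.le_mul_of_pos_left _ (Int.natAbs_pos.mpr (EE_ne hd0E))
    have hDpos : ∀ k, 1 ≤ D k := fun k => Nat.one_le_iff_ne_zero.mpr (hD k).1.ne_zero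
    have hDle : ∀ k, D k ≤ X := fun k =>
      (Nat.le_of_dvd (Finset.prod_pos fun k _ => hDpos k)
        (Finset.dvd_prod_of_mem D (Finset.mem_univ k))).trans hPX
    rw [Finset.coe_image]
    refine ⟨⟨d0, ⟨κ, D⟩⟩, ?_, ?_⟩
    · rw [Finset.mem_coe, hS, Finset.mem_product, Finset.mem_sigma]
      refine ⟨hd0E, Fintype.mem_piFinset.mpr hκ, ?_⟩
      rw [hF]
      simp only [Finset.mem_filter, Fintype.mem_piFinset, Finset.mem_Icc]
      refine ⟨fun k => ⟨hDpos k, hDle k⟩, hD, hcop, hPX, ?_, ?_⟩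
      · intro i p hp
        have hpp : p.Prime := Nat.prime_of_mem_primeFactors hp
        have hpd : p ∣ D i := Nat.dvd_of_mem_primeFactors hp
        have hz : z < p := (hD i).2 p hpp hpd
        have : Fact p.Prime := ⟨hpp⟩
        have hci : ∀ k, k ≠ i → ¬ (p : ℤ) ∣ cc α β i k := fun k hk => hnd i k hk.symm p hz
        obtain ⟨e, he, hs⟩ := signs hxw hpp (hex i) hci (hDX i p hpd)
        refine ngs_mem hpp hci he ?_
        intro k hk
        rw [← hs k hk, hX k]
        have hpt : ¬ (p : ℤ) ∣ t k := by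
          intro h
          refine cop_of hxw hpp (hci k hk) (hDX i p hpd) ?_
          rw [hX k]
          exact Dvd.dvd.mul_left (Dvd.dvd.pow h two_ne_zero) _
        rw [jacobiSym.mul_left _ (t k ^ 2), jacobiSym.sq_one', mul_one]
        rw [Int.isCoprime_iff_gcd_eq_one.symm]
        exact ((Nat.prime_iff_prime_int.mp hpp).irreducible.coprime_iff_not_dvd.mpr hpt).symm
      · intro i
        obtain ⟨k, l, hk, hl, hns⟩ := hNC i
        refine ⟨k, l, hk, hl, ?_⟩
        rintro ⟨r, hr⟩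
        apply hns
        refine ⟨r * (t k * t l), ?_⟩
        simp only at hr
        simp only [hX k, hX l]
        linear_combination (t k * t l) ^ 2 * hr
    · simp only
      rw [← hDP, hdd]
  calc {d : ℤ | d.natAbs ≤ X ∧ Squarefree d ∧ BadS α β d}.ncard
      ≤ ((S.image (fun q => q.1 * ((∏ k, q.2.2 k : ℕ) : ℤ)) : Finset ℤ) : Set ℤ).ncard :=
        Set.ncard_le_ncard hsub (Finset.finite_toSet _)
    _ = (S.image (fun q => q.1 * ((∏ k, q.2.2 k : ℕ) : ℤ))).card := Set.ncard_coe_finset _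
    _ ≤ S.card := Finset.card_image_le
    _ = (EE z).card * ∑ κ ∈ Fintype.piFinset (fun _ : K => EE z), (F κ).card := by
        rw [hS, Finset.card_product, Finset.card_sigma]
    _ = _ := by
        rfl


end Pool.Agent.W500.TW
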